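import Pool.Graph.R_seed8.W726.NS.Abs

/-! The products `aⁿ b⁻ⁿ` of powers of two free generators: norms of sums of translations. -/

set_option autoImplicit false
set_option linter.unusedSectionVars false

namespace Pool.Agent.H258.PA

open Pool.Agent.H379R3.CS Pool.Agent.W726.NS Finset

/-- equivariant maps to a set with an action of a free acting group -/
theorem exists_equivariant {F Γ S : Type*} [Group F] [Group Γ] (φ : F →* Γ)
    (hφ : Function.Injective φ) (ρ : F →* Equiv.Perm S) (o : S) :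
    ∃ ψ : Γ → S, (∀ f y, ψ (φ f * y) = ρ f (ψ y)) ∧ ∀ y, ∃ f, ψ y = ρ f o := by
  classical
  let s := QuotientGroup.rightRel φ.range
  let r : Γ → Γ := fun y => (Quotient.mk s y).out
  have hr : ∀ y, ∃ f : F, φ f = y * (r y)⁻¹ := by
    intro y
    have h1 : s (r y) y := Quotient.mk_out y
    exact QuotientGroup.rightRel_apply.mp h1
  choose f hf using hr
  have hr2 : ∀ (g : F) (y : Γ), r (φ g * y) = r y := by
    intro g y
    have h1 : s (φ g * y) y := by
      refine QuotientGroup.rightRel_apply.mpr ⟨g⁻¹, ?_⟩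
      rw [map_inv, mul_inv_rev, mul_inv_cancel_left]
    have h2 : Quotient.mk s (φ g * y) = Quotient.mk s y := Quotient.sound h1
    show (Quotient.mk s (φ g * y)).out = (Quotient.mk s y).out
    rw [h2]
  refine ⟨fun y => ρ (f y) o, fun g y => ?_, fun y => ⟨f y, rfl⟩⟩
  have h3 : f (φ g * y) = g * f y := by
    apply hφ
    rw [hf, map_mul, hf, hr2, mul_assoc]
  show ρ (f (φ g * y)) o = ρ g (ρ (f y) o)
  rw [h3, map_mul, Equiv.Perm.mul_apply]

/-- the first shear -/
def shA : Equiv.Perm (ℤ × ℤ) where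
  toFun p := (p.1 + 2 * p.2, p.2)
  invFun p := (p.1 - 2 * p.2, p.2)
  left_inv p := by ext <;> simp
  right_inv p := by ext <;> simp

/-- the second shear -/
def shB : Equiv.Perm (ℤ × ℤ) where
  toFun p := (p.1, p.2 + 2 * p.1)
  invFun p := (p.1, p.2 - 2 * p.1)
  left_inv p := by ext <;> simp
  right_inv p := by ext <;> simp

lemma shA_inv_pow (n : ℕ) (p : ℤ × ℤ) : ((shA ^ n)⁻¹) p = (p.1 - 2 * n * p.2, p.2) := by
  rw [Equiv.Perm.inv_eq_iff_eq]
  symm
  have h : ∀ (n : ℕ) (p : ℤ × ℤ), (shA ^ n) p = (p.1 + 2 * n * p.2, p.2) := by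
    intro n
    induction n with
    | zero => intro p; simp
    | succ n ih =>
      intro p
      rw [pow_succ', Equiv.Perm.mul_apply, ih]
      show (p.1 + 2 * n * p.2 + 2 * p.2, p.2) = _
      push_cast
      congr 1
      ring
  rw [h]
  simp

lemma shB_inv_pow (n : ℕ) (p : ℤ × ℤ) : ((shB ^ n)⁻¹) p = (p.1, p.2 - 2 * n * p.1) := by
  rw [Equiv.Perm.inv_eq_iff_eq]
  symm
  have h : ∀ (n : ℕ) (p : ℤ × ℤ), (shB ^ n) p = (p.1, p.2 + 2 * n * p.1) := by
    intro n
    induction n with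
    | zero => intro p; simp
    | succ n ih =>
      intro p
      rw [pow_succ', Equiv.Perm.mul_apply, ih]
      show (p.1, p.2 + 2 * n * p.1 + 2 * p.1) = _
      push_cast
      congr 1
      ring
  rw [h]
  simp

/-- the action of the free group by shears preserves the parity of the sum -/
lemma odd_action (f : FreeGroup (Fin 2)) (p : ℤ × ℤ) (hp : Odd (p.1 + p.2)) :
    Odd ((FreeGroup.lift ![shA, shB] f p).1 + (FreeGroup.lift ![shA, shB] f p).2) := by
  induction f using FreeGroup.induction_on generalizing p with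
  | C1 => simpa using hp
  | of i =>
    fin_cases i
    · have e : FreeGroup.lift ![shA, shB] (FreeGroup.of (0 : Fin 2)) p =
          (p.1 + 2 * p.2, p.2) := by simp [shA]
      show Odd ((FreeGroup.lift ![shA, shB] (FreeGroup.of (0 : Fin 2)) p).1 +
        (FreeGroup.lift ![shA, shB] (FreeGroup.of (0 : Fin 2)) p).2)
      rw [e]
      obtain ⟨k, hk⟩ := hp
      exact ⟨k + p.2, by simp only; linarith⟩
    · have e : FreeGroup.lift ![shA, shB] (FreeGroup.of (1 : Fin 2)) p =
          (p.1, p.2 + 2 * p.1) := by simp [shB]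
      show Odd ((FreeGroup.lift ![shA, shB] (FreeGroup.of (1 : Fin 2)) p).1 +
        (FreeGroup.lift ![shA, shB] (FreeGroup.of (1 : Fin 2)) p).2)
      rw [e]
      obtain ⟨k, hk⟩ := hp
      exact ⟨k + p.1, by simp only; linarith⟩
  | inv_of i _ =>
    fin_cases i
    · have e : FreeGroup.lift ![shA, shB] (FreeGroup.of (0 : Fin 2))⁻¹ p =
          (p.1 - 2 * p.2, p.2) := by
        rw [map_inv]
        have : FreeGroup.lift ![shA, shB] (FreeGroup.of (0 : Fin 2)) = shA := by simp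
        rw [this]; rfl
      show Odd ((FreeGroup.lift ![shA, shB] (FreeGroup.of (0 : Fin 2))⁻¹ p).1 +
        (FreeGroup.lift ![shA, shB] (FreeGroup.of (0 : Fin 2))⁻¹ p).2)
      rw [e]
      obtain ⟨k, hk⟩ := hp
      exact ⟨k - p.2, by simp only; linarith⟩
    · have e : FreeGroup.lift ![shA, shB] (FreeGroup.of (1 : Fin 2))⁻¹ p =
          (p.1, p.2 - 2 * p.1) := by
        rw [map_inv]
        have : FreeGroup.lift ![shA, shB] (FreeGroup.of (1 : Fin 2)) = shB := by simp
        rw [this]; rfl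
      show Odd ((FreeGroup.lift ![shA, shB] (FreeGroup.of (1 : Fin 2))⁻¹ p).1 +
        (FreeGroup.lift ![shA, shB] (FreeGroup.of (1 : Fin 2))⁻¹ p).2)
      rw [e]
      obtain ⟨k, hk⟩ := hp
      exact ⟨k - p.1, by simp only; linarith⟩
  | mul x y hx hy =>
    rw [map_mul, Equiv.Perm.mul_apply]
    exact hx _ (hy p hp)

/-- two distinct translates of `I = {|x| < |y|}` by powers of the first shear are disjoint -/
lemma disjA {i j : ℕ} (hij : i ≠ j) (x y : ℤ) (h1 : |x - 2 * i * y| < |y|)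
    (h2 : |x - 2 * j * y| < |y|) : False := by
  have h3 : |2 * ((i : ℤ) - j) * y| < 2 * |y| := by
    have e : 2 * ((i : ℤ) - j) * y = (x - 2 * j * y) - (x - 2 * i * y) := by ring
    rw [e]
    calc _ ≤ |x - 2 * j * y| + |x - 2 * i * y| := abs_sub _ _
      _ < _ := by linarith
  rw [abs_mul, abs_mul, abs_two] at h3
  have h4 : 1 ≤ |((i : ℤ) - j)| := Int.one_le_abs (sub_ne_zero.mpr (by exact_mod_cast hij))
  nlinarith [abs_nonneg y]

/-- **Free generators.** If `w k` is mapped to `aᵏ b⁻ᵏ`, where `a` and `b` freely generate a free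
group, then the sums of translations by the `w k` have small norm. -/
theorem free_norm {G Γ : Type} [Group G] [Group Γ] (j : G →* Γ) (a b : Γ)
    (hfree : Function.Injective (FreeGroup.lift ![a, b])) {M : ℕ} (w : Fin M → G)
    (hw : ∀ k, j (w k) = a ^ (k : ℕ) * (b ^ (k : ℕ))⁻¹) (c : Fin M → ℂ) (hc : ∀ k, ‖c k‖ ≤ 1) :
    ‖∑ k, c k • (shift (w k) : L2 G →L[ℂ] L2 G)‖ ≤ 4 * Real.sqrt M := by
  classical
  obtain ⟨ψ, hψ, hψo⟩ := exists_equivariant (FreeGroup.lift ![a, b]) hfree
    (FreeGroup.lift ![shA, shB]) ((1 : ℤ), (0 : ℤ))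
  have hodd : ∀ y, Odd ((ψ y).1 + (ψ y).2) := by
    intro y
    obtain ⟨f, hf⟩ := hψo y
    rw [hf]
    exact odd_action f _ ⟨0, by norm_num⟩
  -- the equivariance for the powers
  have hB : ∀ (n : ℕ) (y : Γ), ψ ((b ^ n)⁻¹ * y) = ((ψ y).1, (ψ y).2 - 2 * n * (ψ y).1) := by
    intro n y
    have := hψ ((FreeGroup.of (1 : Fin 2) ^ n)⁻¹) y
    rw [map_inv, map_pow, map_inv, map_pow] at this
    have e1 : FreeGroup.lift ![a, b] (FreeGroup.of (1 : Fin 2)) = b := by simp
    have e2 : FreeGroup.lift ![shA, shB] (FreeGroup.of (1 : Fin 2)) = shB := by simp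
    rw [e1, e2, shB_inv_pow] at this
    exact this
  have hA : ∀ (n : ℕ) (y : Γ), ψ ((a ^ n)⁻¹ * y) = ((ψ y).1 - 2 * n * (ψ y).2, (ψ y).2) := by
    intro n y
    have := hψ ((FreeGroup.of (0 : Fin 2) ^ n)⁻¹) y
    rw [map_inv, map_pow, map_inv, map_pow] at this
    have e1 : FreeGroup.lift ![a, b] (FreeGroup.of (0 : Fin 2)) = a := by simp
    have e2 : FreeGroup.lift ![shA, shB] (FreeGroup.of (0 : Fin 2)) = shA := by simp
    rw [e1, e2, shA_inv_pow] at this
    exact this
  refine norm_four w c hc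
    (fun k => {x | |(ψ (j x)).2 - 2 * (k : ℕ) * (ψ (j x)).1| < |(ψ (j x)).1|})
    (fun k => {x | ¬ |(ψ (j x)).2 - 2 * (k : ℕ) * (ψ (j x)).1| < |(ψ (j x)).1|})
    (fun _ => ∅) (fun _ => ∅) ?_ ?_ ?_ ?_ ?_
  · intro i l hil
    rw [Set.disjoint_left]
    intro x h1 h2
    exact disjA (fun h => hil (Fin.ext h)) _ _ h1 h2
  · intro i l _
    exact Set.disjoint_left.mpr fun x h1 _ => h1
  · intro i l hil
    rw [Set.disjoint_left]
    intro y h1 h2
    -- the image of the complement lies in the translate of `I`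
    have key : ∀ k : Fin M, y ∈ {y | (w k)⁻¹ * y ∈
        {x | ¬ |(ψ (j x)).2 - 2 * (k : ℕ) * (ψ (j x)).1| < |(ψ (j x)).1|}} →
        |(ψ (j y)).1 - 2 * (k : ℕ) * (ψ (j y)).2| < |(ψ (j y)).2| := by
      intro k hk
      rw [Set.mem_ofPred_eq, Set.mem_ofPred_eq, map_mul, map_inv, hw] at hk
      set v := ψ ((a ^ (k : ℕ) * (b ^ (k : ℕ))⁻¹)⁻¹ * j y) with hv
      have hv1 : ψ ((b ^ (k : ℕ))⁻¹ * ((a ^ (k : ℕ) * (b ^ (k : ℕ))⁻¹)⁻¹ * j y)) =
          ψ ((a ^ (k : ℕ))⁻¹ * j y) := by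
        congr 1; group
      rw [hB, ← hv, hA] at hv1
      have e1 : v.1 = (ψ (j y)).1 - 2 * (k : ℕ) * (ψ (j y)).2 := congrArg Prod.fst hv1
      have e2 : v.2 - 2 * (k : ℕ) * v.1 = (ψ (j y)).2 := congrArg Prod.snd hv1
      rw [e2] at hk
      push Not at hk
      rw [← e1]
      refine lt_of_le_of_ne hk ?_
      intro heq
      have ho := hodd (j y)
      have h5 : Odd (v.1 + (ψ (j y)).2) := by
        rw [e1]
        obtain ⟨q, hq⟩ := ho
        exact ⟨q - (k : ℕ) * (ψ (j y)).2, by linarith⟩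
      rw [abs_eq_abs] at heq
      rcases heq with h6 | h6
      · rw [h6] at h5
        obtain ⟨q, hq⟩ := h5
        omega
      · rw [h6] at h5
        obtain ⟨q, hq⟩ := h5
        omega
    exact disjA (fun h => hil (Fin.ext h)) _ _ (key i h1) (key l h2)
  · intro i l _
    exact Set.disjoint_left.mpr fun x h1 _ => h1
  · intro k f
    apply lp.ext
    funext x
    change (f : G → ℂ) x = (cut _ f : G → ℂ) x + (cut _ f : G → ℂ) x + (cut _ f : G → ℂ) x +
      (cut _ f : G → ℂ) x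
    simp only [cut_apply, Set.mem_ofPred_eq, Set.mem_empty_iff_false, if_false, add_zero]
    by_cases h : |(ψ (j x)).2 - 2 * (k : ℕ) * (ψ (j x)).1| < |(ψ (j x)).1|
    · rw [if_pos h, if_neg (not_not.mpr h), add_zero]
    · rw [if_neg h, if_pos h, zero_add]

end Pool.Agent.H258.PA
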