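import Pool.Agent.H258.PA.UD
import Pool.Agent.H258.PA.Ping

/-! Automorphisms of twisted reduced group algebras: the alternative commuting / free. -/

set_option autoImplicit false
set_option linter.unusedSectionVars false

namespace Pool.Agent.H258.PA

open Pool.Agent.H379R3.CS Pool.Agent.W726.NS Pool.Agent.Helper188.NCM Finset

variable {A G : Type} [CStarAlgebra A] [Group G] {u : G → A} {τ : A →L[ℂ] ℂ}

lemma iter_cover {σ : MulAut G} {α : A →⋆ₐ[ℂ] A}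
    (hα : ∀ g, ∃ c : ℂ, ‖c‖ = 1 ∧ α (u g) = c • u (σ g)) :
    ∀ (n : ℕ) (g : G), ∃ c : ℂ, ‖c‖ = 1 ∧ (α^[n]) (u g) = c • u ((σ ^ n) g) := by
  intro n
  induction n with
  | zero => intro g; exact ⟨1, by simp, by simp⟩
  | succ n ih =>
    intro g
    obtain ⟨c, hc, h1⟩ := hα g
    obtain ⟨c', hc', h2⟩ := ih (σ g)
    refine ⟨c * c', by rw [norm_mul, hc, hc', one_mul], ?_⟩
    rw [Function.iterate_succ_apply, h1, iter_smul, h2, smul_smul, pow_succ, MulAut.mul_apply]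

/-- the commuting case -/
theorem ud_lin (hu : RedAlg u τ) {σ : MulAut G} {α : A →⋆ₐ[ℂ] A}
    (hα : ∀ g, ∃ c : ℂ, ‖c‖ = 1 ∧ α (u g) = c • u (σ g)) (g : G) (m : ℕ) (hm : 0 < m)
    (hφ : (σ ^ m) (g⁻¹ * (σ ^ m) g) = g⁻¹ * (σ ^ m) g) : UD α (u g) := by
  obtain ⟨c0, hc0, h0⟩ := iter_cover hα m g
  obtain ⟨c1, hc1, h1⟩ := hu.mul g (g⁻¹ * (σ ^ m) g)
  obtain ⟨c2, hc2, h2⟩ := iter_cover hα m (g⁻¹ * (σ ^ m) g)
  obtain ⟨a, ha⟩ := exists_ee hc2
  rw [mul_inv_cancel_left] at h1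
  rw [hφ] at h2
  refine UD.class_two α m hm (u g) ((c0 * c1) • u (g⁻¹ * (σ ^ m) g))
    (norm_unitary_le (hu.unit g)) (smul_unitary (by rw [norm_mul, hc0, hc1, one_mul])
      (hu.unit _)) a ?_ ?_
  · rw [h0, h1, smul_smul, mul_smul_comm]
  · rw [iter_smul, h2, ha, smul_comm]

/-- the free case -/
theorem ud_free (hu : RedAlg u τ) {σ : MulAut G} {α : A →⋆ₐ[ℂ] A}
    (hα : ∀ g, ∃ c : ℂ, ‖c‖ = 1 ∧ α (u g) = c • u (σ g)) {Γ : Type} [Group Γ] (j : G →* Γ)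
    (t : Γ) (m : ℕ) (g : G) (hj : ∀ x, j ((σ ^ m) x) = t * j x * t⁻¹)
    (hf : Function.Injective (FreeGroup.lift ![(j g)⁻¹ * t * j g, t])) : UD α (u g) := by
  have hj' : ∀ (n : ℕ) (x : G), j ((σ ^ (m * n)) x) = t ^ n * j x * (t ^ n)⁻¹ := by
    intro n
    induction n with
    | zero => intro x; simp
    | succ n ih =>
      intro x
      rw [Nat.mul_succ, pow_add, MulAut.mul_apply, ih, hj, pow_succ]
      group
  refine UD.of_blocks α (u g) (norm_unitary_le (hu.unit g)) fun M => ?_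
  refine ⟨fun k => m * k, fun c hc => ?_⟩
  choose c' hc' hc'' using fun k : Fin M => iter_cover hα (m * k) g
  have h3 : ∀ k, ‖c k * c' k‖ ≤ 1 := fun k => by
    rw [norm_mul, hc' k, mul_one]; exact hc k
  -- the translations
  have h2 : ‖∑ k, ((‖c k * c' k‖ : ℝ) : ℂ) •
      (shift ((σ ^ (m * (k : ℕ))) g) : L2 G →L[ℂ] L2 G)‖ ≤ 4 * Real.sqrt M := by
    have h4 := free_norm j ((j g)⁻¹ * t * j g) t hf
      (fun k : Fin M => g⁻¹ * (σ ^ (m * (k : ℕ))) g) (fun k => by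
        rw [map_mul, map_inv, hj']
        have e : ∀ (x s : Γ) (n : ℕ), (x⁻¹ * s * x) ^ n = x⁻¹ * s ^ n * x := by
          intro x s n
          have := conj_pow (i := n) (a := x⁻¹) (b := s)
          rw [inv_inv] at this
          exact this
        rw [e]; group)
      (fun k => ((‖c k * c' k‖ : ℝ) : ℂ)) (fun k => by
        rw [Complex.norm_real, norm_norm]; exact h3 k)
    have e1 : ∑ k : Fin M, ((‖c k * c' k‖ : ℝ) : ℂ) •
        (shift ((σ ^ (m * (k : ℕ))) g) : L2 G →L[ℂ] L2 G) =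
        shift g * ∑ k : Fin M, ((‖c k * c' k‖ : ℝ) : ℂ) •
          (shift (g⁻¹ * (σ ^ (m * (k : ℕ))) g) : L2 G →L[ℂ] L2 G) := by
      rw [mul_sum]
      refine sum_congr rfl fun k _ => ?_
      rw [mul_smul_comm, ← shift_mul, mul_inv_cancel_left]
    rw [e1]
    refine (norm_mul_le _ _).trans ?_
    have e2 : ‖(shift g : L2 G →L[ℂ] L2 G)‖ ≤ 1 :=
      ContinuousLinearMap.opNorm_le_bound _ zero_le_one fun f => by
        rw [norm_shift_apply, one_mul]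
    calc _ ≤ 1 * (4 * Real.sqrt M) := by gcongr
      _ = _ := one_mul _
  have h5 := hu.norm_sum_le (fun k : Fin M => (σ ^ (m * (k : ℕ))) g) (fun k => c k * c' k)
    (by positivity) h2
  refine le_trans (le_of_eq ?_) h5
  congr 1
  refine sum_congr rfl fun k _ => ?_
  rw [hc'' k, smul_smul]

/-- the alternative at `g` -/
def AltAt (σ : MulAut G) (g : G) : Prop :=
  ∃ k : ℕ, 0 < k ∧ ((σ ^ k) (g⁻¹ * (σ ^ k) g) = g⁻¹ * (σ ^ k) g ∨
    ∃ (Γ : Type) (_ : Group Γ) (j : G →* Γ) (t : Γ), (∀ x, j ((σ ^ k) x) = t * j x * t⁻¹) ∧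
      Function.Injective (FreeGroup.lift ![(j g)⁻¹ * t * j g, t]))

theorem ud_alt (hu : RedAlg u τ) {σ : MulAut G} {α : A →⋆ₐ[ℂ] A}
    (hα : ∀ g, ∃ c : ℂ, ‖c‖ = 1 ∧ α (u g) = c • u (σ g)) (g : G) (h : AltAt σ g) :
    UD α (u g) := by
  obtain ⟨k, hk, h | ⟨Γ, _, j, t, hj, hf⟩⟩ := h
  · exact ud_lin hu hα g k hk h
  · exact ud_free hu hα j t k g hj hf

/-- the alternative, from commuting or free powers in an overgroup -/
theorem alt_of_pa {Γ : Type} [Group Γ] {σ : MulAut G} {k : ℕ} (hk : 0 < k) (j : G →* Γ)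
    (hj : Function.Injective j) (t : Γ) (ht : ∀ x, j ((σ ^ k) x) = t * j x * t⁻¹) (g : G)
    (h : ∃ m : ℕ, 1 ≤ m ∧ (Commute (((j g)⁻¹ * t * j g) ^ m) (t ^ m) ∨
      Function.Injective (FreeGroup.lift ![((j g)⁻¹ * t * j g) ^ m, t ^ m]))) : AltAt σ g := by
  obtain ⟨m, hm, h⟩ := h
  have e : ∀ (x s : Γ) (n : ℕ), (x⁻¹ * s * x) ^ n = x⁻¹ * s ^ n * x := by
    intro x s n
    have := conj_pow (i := n) (a := x⁻¹) (b := s)
    rw [inv_inv] at this
    exact this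
  have hj' : ∀ (n : ℕ) (x : G), j ((σ ^ (k * n)) x) = t ^ n * j x * (t ^ n)⁻¹ := by
    intro n
    induction n with
    | zero => intro x; simp
    | succ n ih =>
      intro x
      rw [Nat.mul_succ, pow_add, MulAut.mul_apply, ih, ht, pow_succ]
      group
  refine ⟨k * m, Nat.mul_pos hk hm, ?_⟩
  rw [e] at h
  rcases h with h | h
  · left
    apply hj
    rw [hj', map_mul, map_inv, hj']
    set s := t ^ m
    have h1 : s * ((j g)⁻¹ * s * j g) = (j g)⁻¹ * s * j g * s := h.symm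
    have h2 : s * ((j g)⁻¹ * (s * j g * s⁻¹)) * s⁻¹ = (s * ((j g)⁻¹ * s * j g)) * s⁻¹ * s⁻¹ := by
      group
    rw [h2, h1]
    group
  · right
    exact ⟨Γ, inferInstance, j, t ^ m, hj' m, h⟩

end Pool.Agent.H258.PA
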