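import Pool.Graph.R_pool_sql_team_seeded_2aa45f1a.Q103.PA.SD

/-! Right-angled Artin groups and the groups which are virtually embedded in them have the power
alternative. -/

set_option autoImplicit false
set_option linter.unusedSectionVars false

namespace Pool.Agent.H258.PA

open Pool.Agent.Q103.PA

/-- the relations of a right-angled Artin group -/
def rels {V : Type} (R : V → V → Prop) : Set (FreeGroup V) :=
  {r | ∃ a b, R a b ∧
    r = FreeGroup.of a * FreeGroup.of b * (FreeGroup.of a)⁻¹ * (FreeGroup.of b)⁻¹}

theorem inj_comp {G H : Type*} [Group G] [Group H] (f : G →* H) (hf : Function.Injective f)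
    {x y : G} (h : Function.Injective (FreeGroup.lift ![x, y])) :
    Function.Injective (FreeGroup.lift ![f x, f y]) := by
  have e : f.comp (FreeGroup.lift ![x, y]) = FreeGroup.lift ![f x, f y] := by
    ext i; fin_cases i <;> simp
  rw [← e, MonoidHom.coe_comp]
  exact hf.comp h

/-- the pairs of elements of a group which have the power alternative -/
def PAt {G : Type*} [Group G] (g h : G) : Prop := ∃ n : ℕ, 1 ≤ n ∧
    (Commute (g ^ n) (h ^ n) ∨ Function.Injective (FreeGroup.lift ![g ^ n, h ^ n]))

theorem PAt.map {G H : Type*} [Group G] [Group H] (f : G →* H) (hf : Function.Injective f)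
    {g h : G} (hp : PAt g h) : PAt (f g) (f h) := by
  obtain ⟨n, hn, h1 | h1⟩ := hp
  · refine ⟨n, hn, Or.inl ?_⟩
    rw [← map_pow, ← map_pow]
    exact h1.map f
  · refine ⟨n, hn, Or.inr ?_⟩
    rw [← map_pow, ← map_pow]
    exact inj_comp f hf h1

theorem PAt.of_map {G H : Type*} [Group G] [Group H] (f : G →* H) (hf : Function.Injective f)
    {g h : G} (hp : PAt (f g) (f h)) : PAt g h := by
  obtain ⟨n, hn, h1 | h1⟩ := hp
  · refine ⟨n, hn, Or.inl (hf ?_)⟩
    rw [map_mul, map_mul, map_pow, map_pow]
    exact h1
  · refine ⟨n, hn, Or.inr (inj_of_hom f ?_)⟩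
    rw [map_pow, map_pow]
    exact h1

/-- subgroups -/
theorem pa_of_injective {G H : Type*} [Group G] [Group H] (f : G →* H)
    (hf : Function.Injective f) (hH : PA H) : PA G :=
  fun g h => PAt.of_map f hf (hH (f g) (f h))

/-- overgroups of finite index -/
theorem pa_of_finiteIndex {G : Type*} [Group G] (H : Subgroup G) (hi : H.index ≠ 0) (hH : PA H) :
    PA G := by
  intro g h
  have hi' : H.relIndex ⊤ ≠ 0 := by rwa [Subgroup.relIndex_top_right]
  obtain ⟨m, hm, -, hgm⟩ := Subgroup.exists_pow_mem_of_relIndex_ne_zero hi' (Subgroup.mem_top g)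
  obtain ⟨l, hl, -, hhl⟩ := Subgroup.exists_pow_mem_of_relIndex_ne_zero hi' (Subgroup.mem_top h)
  have h1 : g ^ (m * l) ∈ H := by rw [pow_mul]; exact H.pow_mem hgm.1 l
  have h2 : h ^ (m * l) ∈ H := by rw [mul_comm, pow_mul]; exact H.pow_mem hhl.1 m
  obtain ⟨n, hn, h3⟩ := PAt.map H.subtype H.subtype_injective (hH ⟨_, h1⟩ ⟨_, h2⟩)
  refine ⟨m * l * n, Nat.mul_pos (Nat.mul_pos hm hl) hn, ?_⟩
  rw [pow_mul g, pow_mul h]
  exact h3

/-- a map between the groups -/
lemma lift_rel {V : Type} {R : V → V → Prop} {G : Type*} [Group G] (f : V → G)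
    (h : ∀ a b, R a b → f a * f b = f b * f a) : ∀ r ∈ rels R, FreeGroup.lift f r = 1 := by
  rintro _ ⟨a, b, hab, rfl⟩
  rw [map_mul, map_mul, map_mul, map_inv, map_inv, FreeGroup.lift_apply_of,
    FreeGroup.lift_apply_of, h a b hab]
  group

lemma of_comm {V : Type} {R : V → V → Prop} {a b : V} (h : R a b) :
    (PresentedGroup.of a : PresentedGroup (rels R)) * PresentedGroup.of b =
      PresentedGroup.of b * PresentedGroup.of a := by
  have h1 : PresentedGroup.mk (rels R)
      (FreeGroup.of a * FreeGroup.of b * (FreeGroup.of a)⁻¹ * (FreeGroup.of b)⁻¹) = 1 :=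
    PresentedGroup.mk_eq_one_iff.mpr (Subgroup.subset_normalClosure ⟨a, b, h, rfl⟩)
  rw [map_mul, map_mul, map_mul, map_inv, map_inv, mul_inv_eq_one, mul_inv_eq_iff_eq_mul] at h1
  exact h1

section step

variable {α : Type} (R : Option α → Option α → Prop)

/-- the relation without the last vertex -/
def R' : α → α → Prop := fun a b => R (some a) (some b)

/-- the subgroup generated by the neighbours of the last vertex -/
def Nb : Subgroup (PresentedGroup (rels (R' R))) :=
  Subgroup.closure {x | ∃ a, (R (some a) none ∨ R none (some a)) ∧ x = PresentedGroup.of a}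

/-- the inclusion -/
def inc : PresentedGroup (rels (R' R)) →* PresentedGroup (rels R) :=
  PresentedGroup.toGroup (f := fun a => (PresentedGroup.of (some a) : PresentedGroup (rels R)))
    (lift_rel _ fun _ _ hab => of_comm hab)

lemma inc_of (a : α) : inc R (PresentedGroup.of a) = PresentedGroup.of (some a) :=
  PresentedGroup.toGroup.of _

lemma inc_comm (c : PresentedGroup (rels (R' R))) (hc : c ∈ Nb R) :
    inc R c * PresentedGroup.of none = PresentedGroup.of none * inc R c := by
  induction hc using Subgroup.closure_induction with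
  | mem x hx =>
    obtain ⟨a, ha | ha, rfl⟩ := hx
    · rw [inc_of]; exact of_comm ha
    · rw [inc_of]; exact (of_comm ha).symm
  | one => rw [map_one, one_mul, mul_one]
  | mul x y _ _ hx hy => rw [map_mul, mul_assoc, hy, ← mul_assoc, hx, mul_assoc]
  | inv x _ hx =>
    rw [map_inv, inv_mul_eq_iff_eq_mul, ← mul_assoc, hx, mul_assoc, mul_inv_cancel, mul_one]

/-- the action on the cosets -/
def rho : PresentedGroup (rels (R' R)) →* Equiv.Perm (PresentedGroup (rels (R' R)) ⧸ Nb R) :=
  MulAction.toPermHom _ _

/-- the images of the free generators -/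
noncomputable def ff (x : PresentedGroup (rels (R' R)) ⧸ Nb R) : PresentedGroup (rels R) :=
  inc R x.out * PresentedGroup.of none * (inc R x.out)⁻¹

lemma ff_mk (h : PresentedGroup (rels (R' R))) :
    ff R (QuotientGroup.mk h) = inc R h * PresentedGroup.of none * (inc R h)⁻¹ := by
  obtain ⟨c, hc⟩ := QuotientGroup.mk_out_eq_mul (Nb R) h
  rw [ff, hc, map_mul, mul_assoc (inc R h), inc_comm R _ c.2]
  group

/-- the map from the right-angled Artin group to the semidirect product -/
def toSD : PresentedGroup (rels R) →*
    (FreeGroup (PresentedGroup (rels (R' R)) ⧸ Nb R)) ⋊[phi (rho R)]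
      (PresentedGroup (rels (R' R))) :=
  PresentedGroup.toGroup (f := fun o => match o with
    | none => SemidirectProduct.inl (FreeGroup.of (QuotientGroup.mk 1))
    | some a => SemidirectProduct.inr (PresentedGroup.of a)) (by
  have key : ∀ a : α, (R (some a) none ∨ R none (some a)) →
      (SemidirectProduct.inr (PresentedGroup.of a) :
        (FreeGroup (PresentedGroup (rels (R' R)) ⧸ Nb R)) ⋊[phi (rho R)]
          (PresentedGroup (rels (R' R)))) *
        SemidirectProduct.inl (FreeGroup.of (QuotientGroup.mk 1)) =
      SemidirectProduct.inl (FreeGroup.of (QuotientGroup.mk 1)) *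
        SemidirectProduct.inr (PresentedGroup.of a) := by
    intro a ha
    have h1 : (phi (rho R)) (PresentedGroup.of a) (FreeGroup.of (QuotientGroup.mk 1)) =
        FreeGroup.of (QuotientGroup.mk 1) := by
      rw [phi_apply, FreeGroup.map.of]
      congr 1
      show (PresentedGroup.of a : PresentedGroup (rels (R' R))) •
        (QuotientGroup.mk 1 : PresentedGroup (rels (R' R)) ⧸ Nb R) = QuotientGroup.mk 1
      rw [MulAction.Quotient.smul_mk, smul_eq_mul, mul_one]
      refine QuotientGroup.eq.mpr ?_
      rw [mul_one]
      exact (Nb R).inv_mem (Subgroup.subset_closure ⟨a, ha, rfl⟩)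
    have h2 := SemidirectProduct.inl_aut (φ := phi (rho R)) (PresentedGroup.of a)
      (FreeGroup.of (QuotientGroup.mk 1))
    rw [h1, map_inv] at h2
    rw [eq_mul_inv_iff_mul_eq] at h2
    exact h2.symm
  refine lift_rel _ ?_
  rintro (_ | a) (_ | b) hab
  · rfl
  · exact (key b (Or.inr hab)).symm
  · exact key a (Or.inl hab)
  · show SemidirectProduct.inr _ * SemidirectProduct.inr _ =
      SemidirectProduct.inr _ * SemidirectProduct.inr _
    rw [← map_mul, ← map_mul]
    congr 1
    exact of_comm (R := R' R) hab)

/-- the map back -/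
noncomputable def ofSD : (FreeGroup (PresentedGroup (rels (R' R)) ⧸ Nb R)) ⋊[phi (rho R)]
      (PresentedGroup (rels (R' R))) →* PresentedGroup (rels R) :=
  SemidirectProduct.lift (FreeGroup.lift (ff R)) (inc R) (by
    intro g
    ext x
    obtain ⟨h, rfl⟩ := QuotientGroup.mk_surjective x
    show FreeGroup.lift (ff R) (FreeGroup.map (rho R g) (FreeGroup.of (QuotientGroup.mk h))) =
      inc R g * FreeGroup.lift (ff R) (FreeGroup.of (QuotientGroup.mk h)) * (inc R g)⁻¹
    rw [FreeGroup.map.of, FreeGroup.lift_apply_of, FreeGroup.lift_apply_of]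
    have e : rho R g (QuotientGroup.mk h) = QuotientGroup.mk (g * h) := rfl
    rw [e, ff_mk, ff_mk, map_mul]
    group)

theorem toSD_injective : Function.Injective (toSD R) := by
  have h : (ofSD R).comp (toSD R) = MonoidHom.id _ := by
    refine PresentedGroup.ext fun x => ?_
    rw [MonoidHom.comp_apply, MonoidHom.id_apply]
    cases x with
    | none =>
      have e : toSD R (PresentedGroup.of none) =
          SemidirectProduct.inl (FreeGroup.of (QuotientGroup.mk 1)) :=
        PresentedGroup.toGroup.of _
      rw [e, ofSD, SemidirectProduct.lift_inl, FreeGroup.lift_apply_of, ff_mk, map_one, one_mul,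
        inv_one, mul_one]
    | some a =>
      have e : toSD R (PresentedGroup.of (some a)) =
          SemidirectProduct.inr (PresentedGroup.of a) :=
        PresentedGroup.toGroup.of _
      rw [e, ofSD, SemidirectProduct.lift_inr, inc_of]
  intro x y hxy
  have := congrArg (ofSD R) hxy
  rwa [← MonoidHom.comp_apply, ← MonoidHom.comp_apply, h] at this

end step

/-- finitely generated right-angled Artin groups -/
theorem pa_raag_finite (V : Type) [Finite V] :
    ∀ R : V → V → Prop, PA (PresentedGroup (rels R)) := by
  refine Finite.induction_empty_option (P := fun V : Type =>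
    ∀ R : V → V → Prop, PA (PresentedGroup (rels R))) ?_ ?_ ?_ V
  · intro α β e h R
    let f : PresentedGroup (rels R) →* PresentedGroup (rels fun a b => R (e a) (e b)) :=
      PresentedGroup.toGroup (f := fun b => PresentedGroup.of (e.symm b))
        (lift_rel _ fun a b hab => of_comm (by simpa using hab))
    let g : PresentedGroup (rels fun a b => R (e a) (e b)) →* PresentedGroup (rels R) :=
      PresentedGroup.toGroup (f := fun a => PresentedGroup.of (e a))
        (lift_rel _ fun a b hab => of_comm hab)
    have hgf : g.comp f = MonoidHom.id _ := by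
      refine PresentedGroup.ext fun x => ?_
      rw [MonoidHom.comp_apply, MonoidHom.id_apply]
      have e1 : f (PresentedGroup.of x) = PresentedGroup.of (e.symm x) :=
        PresentedGroup.toGroup.of _
      have e2 : g (PresentedGroup.of (e.symm x)) = PresentedGroup.of (e (e.symm x)) :=
        PresentedGroup.toGroup.of _
      rw [e1, e2, e.apply_symm_apply]
    refine pa_of_injective f (fun x y hxy => ?_) (h _)
    have := congrArg g hxy
    rwa [← MonoidHom.comp_apply, ← MonoidHom.comp_apply, hgf] at this
  · intro R g h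
    refine ⟨1, le_rfl, Or.inl ?_⟩
    have : Subsingleton (PresentedGroup (rels R)) := by
      refine ⟨fun x y => ?_⟩
      obtain ⟨x, rfl⟩ := PresentedGroup.mk_surjective _ x
      obtain ⟨y, rfl⟩ := PresentedGroup.mk_surjective _ y
      congr 1
      exact Subsingleton.elim x y
    exact Subsingleton.elim _ _
  · intro α _ ih R
    exact pa_of_injective (toSD R) (toSD_injective R) (sd_pa (rho R) (ih (R' R)))

/-- right-angled Artin groups -/
theorem pa_raag {V : Type} (R : V → V → Prop) : PA (PresentedGroup (rels R)) := by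
  classical
  intro g h
  obtain ⟨v, rfl⟩ := PresentedGroup.mk_surjective _ g
  obtain ⟨w, rfl⟩ := PresentedGroup.mk_surjective _ h
  obtain ⟨S1, hS1⟩ := supp v
  obtain ⟨S2, hS2⟩ := supp w
  let S : Set V := ↑(S1 ∪ S2)
  have : Finite S := Finset.finite_toSet (S1 ∪ S2)
  obtain ⟨v', rfl⟩ := hS1 S fun s hs => Finset.mem_coe.2 (Finset.mem_union_left _ hs)
  obtain ⟨w', rfl⟩ := hS2 S fun s hs => Finset.mem_coe.2 (Finset.mem_union_right _ hs)
  let RS : S → S → Prop := fun a b => R a b
  let ι : PresentedGroup (rels RS) →* PresentedGroup (rels R) :=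
    PresentedGroup.toGroup
      (f := fun a : S => (PresentedGroup.of (a : V) : PresentedGroup (rels R)))
      (lift_rel _ fun a b hab => of_comm (R := R) hab)
  let r : PresentedGroup (rels R) →* PresentedGroup (rels RS) :=
    PresentedGroup.toGroup (f := fun a => if ha : a ∈ S then PresentedGroup.of ⟨a, ha⟩ else 1)
      (lift_rel _ fun a b hab => by
        by_cases ha : a ∈ S
        · by_cases hb : b ∈ S
          · simp only [ha, hb, dif_pos]
            exact of_comm (R := RS) hab
          · simp only [ha, hb, dif_pos, dif_neg, not_false_iff, mul_one, one_mul]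
        · simp only [ha, dif_neg, not_false_iff, one_mul, mul_one])
  have hιr : r.comp ι = MonoidHom.id _ := by
    refine PresentedGroup.ext fun x => ?_
    rw [MonoidHom.comp_apply, MonoidHom.id_apply]
    have e1 : ι (PresentedGroup.of x) = PresentedGroup.of (x : V) := PresentedGroup.toGroup.of _
    have e2 : r (PresentedGroup.of (x : V)) =
        if ha : (x : V) ∈ S then PresentedGroup.of ⟨x, ha⟩ else 1 := PresentedGroup.toGroup.of _
    rw [e1, e2, dif_pos x.2]
  have hι : Function.Injective ι := by
    intro x y hxy
    have := congrArg r hxy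
    rwa [← MonoidHom.comp_apply, ← MonoidHom.comp_apply, hιr] at this
  have hmk : ∀ z : FreeGroup S, ι (PresentedGroup.mk _ z) =
      PresentedGroup.mk (rels R) (FreeGroup.map Subtype.val z) := by
    intro z
    have : ι.comp (PresentedGroup.mk (rels RS)) =
        (PresentedGroup.mk (rels R)).comp (FreeGroup.map Subtype.val) := by
      ext a
      rw [MonoidHom.comp_apply, MonoidHom.comp_apply, FreeGroup.map.of]
      exact PresentedGroup.toGroup.of _
    exact DFunLike.congr_fun this z
  rw [← hmk, ← hmk]
  exact PAt.map ι hι (pa_raag_finite S RS _ _)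

end Pool.Agent.H258.PA
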