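import Pool.Graph.R_seed8.W726.NS.WeylQ
import Pool.Graph.R_seed8.W726.NS.Kbsz
import Pool.Graph.R_seed8.Helper188.NCM.Group

/-! Elements whose twisted Möbius sums are small in norm, uniformly over all rotations. -/

set_option autoImplicit false
set_option linter.unusedSectionVars false

open Finset Filter Topology

namespace Pool.Agent.H258.PA

open Pool.Agent.Helper188.NCM Pool.Agent.W726.NS

variable {U : Type} [CStarAlgebra U]

/-- the Möbius sums, twisted by a rotation -/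
noncomputable def MS (α : U →⋆ₐ[ℂ] U) (x : U) (N : ℕ) (z : ℂ) : U :=
  ∑ n ∈ range N, (mob n * z ^ n) • (α^[n]) x

/-- the Möbius sums are `o(N)` in norm, uniformly over all rotations -/
def UD (α : U →⋆ₐ[ℂ] U) (x : U) : Prop :=
  ∀ ε : ℝ, 0 < ε → ∃ N₀ : ℕ, ∀ N ≥ N₀, ∀ z : ℂ, ‖z‖ = 1 → ‖MS α x N z‖ ≤ ε * N

lemma norm_wt {z : ℂ} (hz : ‖z‖ = 1) (n : ℕ) : ‖mob n * z ^ n‖ ≤ 1 := by
  rw [norm_mul, norm_pow, hz, one_pow, mul_one]
  exact norm_mob_le n

lemma MS_le (α : U →⋆ₐ[ℂ] U) (x : U) (N : ℕ) {z : ℂ} (hz : ‖z‖ = 1) :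
    ‖MS α x N z‖ ≤ N * ‖x‖ := by
  refine (norm_sum_le _ _).trans ?_
  calc ∑ n ∈ range N, ‖(mob n * z ^ n) • (α^[n]) x‖ ≤ ∑ n ∈ range N, ‖x‖ := by
        refine sum_le_sum fun n _ => ?_
        rw [norm_smul]
        calc ‖mob n * z ^ n‖ * ‖(α^[n]) x‖ ≤ 1 * ‖x‖ := by
              gcongr
              · exact norm_wt hz n
              · exact norm_iter_le α n x
          _ = ‖x‖ := one_mul _
    _ = N * ‖x‖ := by simp

lemma MS_add (α : U →⋆ₐ[ℂ] U) (x y : U) (N : ℕ) (z : ℂ) :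
    MS α (x + y) N z = MS α x N z + MS α y N z := by
  simp only [MS, iter_add, smul_add, sum_add_distrib]

lemma MS_smul (α : U →⋆ₐ[ℂ] U) (c : ℂ) (x : U) (N : ℕ) (z : ℂ) :
    MS α (c • x) N z = c • MS α x N z := by
  rw [MS, MS, smul_sum]
  refine sum_congr rfl fun n _ => ?_
  rw [iter_smul, smul_comm]

theorem UD.add {α : U →⋆ₐ[ℂ] U} {x y : U} (hx : UD α x) (hy : UD α y) : UD α (x + y) := by
  intro ε hε
  obtain ⟨N1, h1⟩ := hx (ε / 2) (by positivity)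
  obtain ⟨N2, h2⟩ := hy (ε / 2) (by positivity)
  refine ⟨max N1 N2, fun N hN z hz => ?_⟩
  have g1 := h1 N ((le_max_left _ _).trans hN) z hz
  have g2 := h2 N ((le_max_right _ _).trans hN) z hz
  rw [MS_add]
  refine (norm_add_le _ _).trans ?_
  linarith

/-- bounded linear images -/
theorem ud_of_bound {V : Type} [CStarAlgebra V] {α : U →⋆ₐ[ℂ] U} {β : V →⋆ₐ[ℂ] V} {x : U} {y : V}
    (hx : UD α x) (C : ℝ) (hC : 0 ≤ C)
    (h : ∀ (N : ℕ) (z : ℂ), ‖z‖ = 1 → ∃ z' : ℂ, ‖z'‖ = 1 ∧ ‖MS β y N z‖ ≤ C * ‖MS α x N z'‖) :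
    UD β y := by
  intro ε hε
  obtain ⟨N1, h1⟩ := hx (ε / (C + 1)) (by positivity)
  refine ⟨N1, fun N hN z hz => ?_⟩
  obtain ⟨z', hz', h2⟩ := h N z hz
  refine h2.trans ?_
  calc C * ‖MS α x N z'‖ ≤ C * (ε / (C + 1) * N) := by
        gcongr; exact h1 N hN z' hz'
    _ = (C / (C + 1)) * (ε * N) := by ring
    _ ≤ 1 * (ε * N) := by
        gcongr
        rw [div_le_one (by positivity)]
        linarith
    _ = _ := one_mul _

theorem UD.smul {α : U →⋆ₐ[ℂ] U} {x : U} (c : ℂ) (hx : UD α x) : UD α (c • x) := by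
  refine ud_of_bound hx ‖c‖ (norm_nonneg c) fun N z hz => ⟨z, hz, ?_⟩
  rw [MS_smul, norm_smul]

theorem UD.zero (α : U →⋆ₐ[ℂ] U) : UD α 0 := by
  intro ε hε
  refine ⟨0, fun N _ z hz => (MS_le α 0 N hz).trans ?_⟩
  rw [norm_zero, mul_zero]
  positivity

theorem UD.closed (α : U →⋆ₐ[ℂ] U) {S : Set U} (hS : ∀ x ∈ S, UD α x) :
    ∀ x ∈ (Submodule.span ℂ S).topologicalClosure, UD α x := by
  have hS' : ∀ x ∈ Submodule.span ℂ S, UD α x := by
    intro x hx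
    induction hx using Submodule.span_induction with
    | mem x hx => exact hS x hx
    | zero => exact UD.zero α
    | add x y _ _ hx hy => exact hx.add hy
    | smul c x _ hx => exact hx.smul c
  intro x hx ε hε
  have hx' : x ∈ closure (Submodule.span ℂ S : Set U) := hx
  obtain ⟨y, hy, hxy⟩ := Metric.mem_closure_iff.1 hx' (ε / 2) (by positivity)
  obtain ⟨N1, h1⟩ := hS' y hy (ε / 2) (by positivity)
  refine ⟨N1, fun N hN z hz => ?_⟩
  have g1 := h1 N hN z hz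
  have g2 := MS_le α (x - y) N hz
  have e : MS α x N z = MS α (x - y) N z + MS α y N z := by
    rw [← MS_add, sub_add_cancel]
  rw [e]
  refine (norm_add_le _ _).trans ?_
  rw [dist_eq_norm] at hxy
  have : (N : ℝ) * ‖x - y‖ ≤ N * (ε / 2) := by gcongr
  linarith

/-- eigenvectors with eigenvalues of modulus one -/
def Eig {B : Type} [CStarAlgebra B] (β : B →⋆ₐ[ℂ] B) (w : B) : Prop :=
  ∃ l : ℂ, ‖l‖ = 1 ∧ β w = l • w

lemma eig_iter {β : U →⋆ₐ[ℂ] U} {w : U} {l : ℂ} (hw : β w = l • w) (n : ℕ) :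
    (β^[n]) w = l ^ n • w := by
  induction n with
  | zero => simp
  | succ n ih => rw [Function.iterate_succ_apply, hw, iter_smul, ih, smul_smul, pow_succ']

/-- extensions by eigenvectors -/
theorem UD.ext {α : U →⋆ₐ[ℂ] U} {x : U} (hx : UD α x) {B : Type} [CStarAlgebra B]
    (β : B →⋆ₐ[ℂ] B) (ι : U →⋆ₐ[ℂ] B) (hι : ∀ a, β (ι a) = ι (α a)) {v w : B} (hv : Eig β v)
    (hw : Eig β w) : UD β (v * ι x * w) := by
  obtain ⟨l, hl, hv⟩ := hv
  obtain ⟨l', hl', hw⟩ := hw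
  have hn : ∀ (n : ℕ) (a : U), (β^[n]) (ι a) = ι ((α^[n]) a) := by
    intro n a
    induction n with
    | zero => rfl
    | succ n ih => rw [Function.iterate_succ_apply', Function.iterate_succ_apply', ih, hι]
  refine ud_of_bound hx (‖v‖ * ‖w‖) (by positivity) fun N z hz =>
    ⟨z * (l * l'), by rw [norm_mul, norm_mul, hz, hl, hl', one_mul, one_mul], ?_⟩
  have e : MS β (v * ι x * w) N z = v * ι (MS α x N (z * (l * l'))) * w := by
    rw [MS, MS, map_sum, mul_sum, sum_mul]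
    refine sum_congr rfl fun n _ => ?_
    rw [iter_mul, iter_mul, hn, eig_iter hv, eig_iter hw, map_smul, smul_mul_assoc,
      smul_mul_smul_comm, smul_smul, mul_smul_comm, smul_mul_assoc]
    congr 1
    rw [mul_pow, mul_pow]; ring
  rw [e]
  calc ‖v * ι (MS α x N (z * (l * l'))) * w‖
      ≤ ‖v‖ * ‖ι (MS α x N (z * (l * l')))‖ * ‖w‖ :=
        (norm_mul_le _ _).trans (by gcongr; exact norm_mul_le _ _)
    _ ≤ ‖v‖ * ‖MS α x N (z * (l * l'))‖ * ‖w‖ := by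
        gcongr
        exact NonUnitalStarAlgHom.norm_apply_le ι _
    _ = _ := by ring

/-- subsystems -/
theorem UD.embed {W : Type} [CStarAlgebra W] {α : U →⋆ₐ[ℂ] U} (γ : W →⋆ₐ[ℂ] W)
    (κ : W →⋆ₐ[ℂ] U) (hκ : Function.Injective κ) (hγ : ∀ w, κ (γ w) = α (κ w)) {w : W}
    (h : UD α (κ w)) : UD γ w := by
  have hn : ∀ (n : ℕ), κ ((γ^[n]) w) = (α^[n]) (κ w) := by
    intro n
    induction n with
    | zero => rfl
    | succ n ih => rw [Function.iterate_succ_apply', Function.iterate_succ_apply', hγ, ih]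
  refine ud_of_bound h 1 zero_le_one fun N z hz => ⟨z, hz, ?_⟩
  rw [one_mul, ← NonUnitalStarAlgHom.norm_map κ hκ, MS, MS, map_sum]
  refine le_of_eq ?_
  congr 1
  exact sum_congr rfl fun n _ => by rw [map_smul, hn]

/-- if the orbit of `x` contains blocks of `M` terms all of whose combinations have norm at most
`4 √M`, then `x` is disjoint from all bounded sequences -/
theorem small_of_blocks (α : U →⋆ₐ[ℂ] U) (x : U) (hx : ‖x‖ ≤ 1)
    (h : ∀ M : ℕ, ∃ n : Fin M → ℕ, ∀ c : Fin M → ℂ, (∀ k, ‖c k‖ ≤ 1) →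
      ‖∑ k, c k • (α^[n k]) x‖ ≤ 4 * Real.sqrt M) (ε : ℝ) (hε : 0 < ε) :
    ∃ N₀ : ℕ, ∀ N ≥ N₀, ∀ b : ℕ → ℂ, (∀ n, ‖b n‖ ≤ 1) →
      ‖∑ n ∈ range N, b n • (α^[n]) x‖ ≤ ε * N := by
  obtain ⟨M, hM⟩ := exists_nat_ge ((8 / ε) ^ 2 + 1)
  have hMpos : (0 : ℝ) < M := lt_of_lt_of_le (by positivity) hM
  have hsq : 8 / ε ≤ Real.sqrt M := by
    apply Real.le_sqrt_of_sq_le
    linarith
  obtain ⟨n, hn⟩ := h M
  obtain ⟨B, hB⟩ : ∃ B : ℕ, ∀ k, n k ≤ B :=
    ⟨Finset.univ.sup n, fun k => Finset.le_sup (f := n) (mem_univ k)⟩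
  obtain ⟨N₀, hN₀⟩ := exists_nat_ge (4 * B / ε)
  refine ⟨N₀, fun N hN b hb => ?_⟩
  set a : ℕ → U := fun m => b m • (α^[m]) x with ha
  have ha1 : ∀ m, ‖a m‖ ≤ 1 := by
    intro m
    rw [ha]
    simp only [norm_smul]
    calc ‖b m‖ * ‖(α^[m]) x‖ ≤ 1 * 1 := by
          gcongr
          · exact hb m
          · exact (norm_iter_le α m x).trans hx
      _ = 1 := one_mul 1
  have hiter : ∀ (m : ℕ) (c : Fin M → ℂ), ∑ k, c k • (α^[m]) ((α^[n k]) x) =
      (α^[m]) (∑ k, c k • (α^[n k]) x) := by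
    intro m c
    induction m with
    | zero => simp
    | succ m ih =>
      simp only [Function.iterate_succ_apply'] at ih ⊢
      rw [← ih, map_sum]
      exact sum_congr rfl fun k _ => by rw [map_smul]
  have hblock : ∀ m : ℕ, ‖∑ k, a (m + n k)‖ ≤ 4 * Real.sqrt M := by
    intro m
    have e : ∑ k, a (m + n k) = (α^[m]) (∑ k, b (m + n k) • (α^[n k]) x) := by
      rw [← hiter]
      refine sum_congr rfl fun k _ => ?_
      rw [ha]
      simp only
      rw [Function.iterate_add_apply]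
    rw [e]
    exact (norm_iter_le α m _).trans (hn _ fun k => hb _)
  set S : U := ∑ m ∈ range N, a m with hS
  have h1 : (M : ℂ) • S = ∑ k : Fin M, (∑ m ∈ range N, a m - ∑ m ∈ range N, a (m + n k)) +
      ∑ m ∈ range N, ∑ k, a (m + n k) := by
    rw [sum_sub_distrib, sum_comm (s := range N)]
    simp only [sub_add_cancel, sum_const, card_univ, Fintype.card_fin]
    rw [hS, ← Nat.cast_smul_eq_nsmul ℂ]
  have h2 : (M : ℝ) * ‖S‖ ≤ M * (2 * B) + N * (4 * Real.sqrt M) := by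
    have e : (M : ℝ) * ‖S‖ = ‖(M : ℂ) • S‖ := by rw [norm_smul]; simp
    rw [e, h1]
    refine (norm_add_le _ _).trans (add_le_add ?_ ?_)
    · refine (norm_sum_le _ _).trans ?_
      refine (sum_le_sum (g := fun _ => (2 * B : ℝ)) fun k _ => ?_).trans ?_
      · refine (shift_sum a ha1 N (n k)).trans ?_
        have : (n k : ℝ) ≤ B := by exact_mod_cast hB k
        linarith
      · simp
    · refine (norm_sum_le _ _).trans ?_
      refine (sum_le_sum (g := fun _ => (4 * Real.sqrt M : ℝ)) fun m _ => hblock m).trans ?_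
      simp
  have h3 : ‖S‖ * Real.sqrt M ≤ 2 * B * Real.sqrt M + 4 * N := by
    have hs : 0 < Real.sqrt M := Real.sqrt_pos.mpr hMpos
    have hs2 : Real.sqrt M * Real.sqrt M = M := Real.mul_self_sqrt hMpos.le
    have h4 : Real.sqrt M * (‖S‖ * Real.sqrt M) ≤
        Real.sqrt M * (2 * B * Real.sqrt M + 4 * N) := by
      calc Real.sqrt M * (‖S‖ * Real.sqrt M) = (Real.sqrt M * Real.sqrt M) * ‖S‖ := by ring
        _ = M * ‖S‖ := by rw [hs2]
        _ ≤ M * (2 * B) + N * (4 * Real.sqrt M) := h2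
        _ = (Real.sqrt M * Real.sqrt M) * (2 * B) + N * (4 * Real.sqrt M) := by rw [hs2]
        _ = Real.sqrt M * (2 * B * Real.sqrt M + 4 * N) := by ring
    exact le_of_mul_le_mul_left h4 hs
  have hs : 0 < Real.sqrt M := Real.sqrt_pos.mpr hMpos
  have h5 : 4 * (B : ℝ) ≤ ε * N := by
    have : 4 * B / ε ≤ (N : ℝ) := hN₀.trans (by exact_mod_cast hN)
    rw [div_le_iff₀ hε] at this
    linarith
  have h6 : 8 ≤ ε * Real.sqrt M := by
    rw [div_le_iff₀ hε] at hsq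
    linarith
  have h7 : ‖S‖ * Real.sqrt M ≤ (ε * N) * Real.sqrt M := by
    have h8 : (8 : ℝ) * N ≤ ε * Real.sqrt M * N := by gcongr
    have h9 : 4 * (B : ℝ) * Real.sqrt M ≤ ε * N * Real.sqrt M := by gcongr
    nlinarith
  exact le_of_mul_le_mul_right h7 hs

theorem UD.of_blocks (α : U →⋆ₐ[ℂ] U) (x : U) (hx : ‖x‖ ≤ 1)
    (h : ∀ M : ℕ, ∃ n : Fin M → ℕ, ∀ c : Fin M → ℂ, (∀ k, ‖c k‖ ≤ 1) →
      ‖∑ k, c k • (α^[n k]) x‖ ≤ 4 * Real.sqrt M) : UD α x := by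
  intro ε hε
  obtain ⟨N₀, hN₀⟩ := small_of_blocks α x hx h ε hε
  exact ⟨N₀, fun N hN z hz => hN₀ N hN _ fun n => norm_wt hz n⟩

/-- elements of class two -/
theorem UD.class_two (α : U →⋆ₐ[ℂ] U) (m : ℕ) (hm : 0 < m)
    (w z : U) (hw : ‖w‖ ≤ 1) (hz : z ∈ unitary U) (a : ℝ) (h1 : (α^[m]) w = w * z)
    (h2 : (α^[m]) z = ee a • z) : UD α w := by
  intro ε hε
  -- iterates of `α^m`
  have hit : ∀ j : ℕ, (α^[m * j]) w = ee (a * ((j : ℝ) * (j - 1) / 2)) • (w * z ^ j) := by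
    intro j
    induction j with
    | zero => simp [ee_zero]
    | succ j ih =>
      rw [Nat.mul_succ, Nat.add_comm, Function.iterate_add_apply, ih, iter_smul, iter_mul,
        iter_pow, h1, h2, smul_pow, mul_smul_comm, smul_smul, ← ee_nat_mul, ← ee_add, mul_assoc,
        ← pow_succ']
      congr 2
      push_cast; ring
  have hAPr : ∀ r < m, ∃ J₀ : ℕ, ∀ J ≥ J₀, ∀ β : ℝ,
      ‖∑ j ∈ range J, mob (m * j + r) * ee (a * ((j : ℝ) * (j - 1) / 2) + β * j)‖ ≤ (ε / 2) * J :=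
    fun r hr => apCase a m r hm hr (qmAll' kbsz _) (ε / 2) (by positivity)
  choose! J₀ hJ₀ using hAPr
  have hr : ∀ r < m, ∀ J ≥ J₀ r, ∀ ζ : ℂ, ‖ζ‖ = 1 →
      ‖∑ j ∈ range J, (mob (m * j + r) * ζ ^ (m * j + r)) • (α^[m * j + r]) w‖ ≤ (ε / 2) * J := by
    intro r hr J hJ ζ hζ
    obtain ⟨θ, hθ⟩ := exists_ee (z := ζ ^ m) (by rw [norm_pow, hζ, one_pow])
    have e : ∑ j ∈ range J, (mob (m * j + r) * ζ ^ (m * j + r)) • (α^[m * j + r]) w
        = ζ ^ r • ((α^[r]) w * ∑ j ∈ range J,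
          (mob (m * j + r) * ee (a * ((j : ℝ) * (j - 1) / 2)) * ee (θ * j)) •
          ((α^[r]) z) ^ j) := by
      rw [mul_sum, smul_sum]
      refine sum_congr rfl fun j _ => ?_
      rw [Nat.add_comm, Function.iterate_add_apply, hit, iter_smul, iter_mul, iter_pow, smul_smul,
        mul_smul_comm, smul_smul, Nat.add_comm, ee_nat_mul, ← hθ]
      congr 1
      rw [pow_add, pow_mul]; ring
    rw [e, norm_smul, norm_pow, hζ, one_pow, one_mul]
    refine (norm_mul_le _ _).trans ?_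
    have h3 : ‖∑ j ∈ range J, (mob (m * j + r) * ee (a * ((j : ℝ) * (j - 1) / 2)) *
          ee (θ * j)) • ((α^[r]) z) ^ j‖ ≤ (ε / 2) * J := by
      refine norm_poly_le _ (iter_unitary α r hz) J _ _ fun β => ?_
      have h4 := hJ₀ r hr J hJ (θ + β)
      refine le_trans (le_of_eq ?_) h4
      congr 1
      refine sum_congr rfl fun j _ => ?_
      rw [add_mul, ← add_assoc, ee_add, ee_add]; ring
    have h5 : ‖(α^[r]) w‖ ≤ 1 := (norm_iter_le α r w).trans hw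
    calc _ ≤ 1 * ((ε / 2) * J) := by gcongr
      _ = _ := one_mul _
  -- all blocks
  obtain ⟨J₁, hJ₁⟩ : ∃ J₁, ∀ r < m, J₀ r ≤ J₁ :=
    ⟨(range m).sup J₀, fun r hr => Finset.le_sup (f := J₀) (mem_range.2 hr)⟩
  obtain ⟨N₁, hN₁⟩ := exists_nat_ge (2 * m / ε)
  refine ⟨max (m * (J₁ + 1)) N₁, fun N hN ζ hζ => ?_⟩
  rw [MS]
  set J := N / m with hJ
  have hJ1 : J₁ ≤ J := by
    rw [hJ, Nat.le_div_iff_mul_le hm, mul_comm]
    exact (Nat.mul_le_mul_left m (Nat.le_succ J₁)).trans ((le_max_left _ _).trans hN)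
  have hNJ : N = m * J + N % m := (Nat.div_add_mod N m).symm
  have hmod : N % m < m := Nat.mod_lt _ hm
  rw [hNJ, sum_range_add, sum_blocks]
  refine (norm_add_le _ _).trans ?_
  have b1 : ‖∑ r ∈ range m, ∑ j ∈ range J, (mob (m * j + r) * ζ ^ (m * j + r)) •
      (α^[m * j + r]) w‖ ≤ m * ((ε / 2) * J) := by
    refine (norm_sum_le _ _).trans ?_
    calc _ ≤ ∑ r ∈ range m, (ε / 2) * (J : ℝ) := by
          refine sum_le_sum fun r hr' => ?_
          have hr'' := mem_range.1 hr'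
          exact hr r hr'' J ((hJ₁ r hr'').trans hJ1) ζ hζ
      _ = _ := by simp
  have b2 : ‖∑ x ∈ range (N % m), (mob (m * J + x) * ζ ^ (m * J + x)) •
      (α^[m * J + x]) w‖ ≤ m := by
    refine (norm_sum_le _ _).trans ?_
    calc _ ≤ ∑ x ∈ range (N % m), (1 : ℝ) := by
          refine sum_le_sum fun x _ => ?_
          rw [norm_smul]
          calc _ ≤ (1 : ℝ) * 1 := by
                gcongr
                · exact norm_wt hζ _
                · exact (norm_iter_le α _ w).trans hw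
            _ = 1 := one_mul _
      _ = ((N % m : ℕ) : ℝ) := by simp
      _ ≤ m := by exact_mod_cast hmod.le
  have b3 : (2 * m / ε : ℝ) ≤ N := hN₁.trans (by exact_mod_cast (le_max_right _ _).trans hN)
  rw [div_le_iff₀ hε] at b3
  have b4 : (m : ℝ) * J ≤ N := by
    have : m * J ≤ N := Nat.mul_div_le N m
    exact_mod_cast this
  have b5 : ((m * J + N % m : ℕ) : ℝ) = N := by rw [← hNJ]
  rw [b5]
  nlinarith

/-- the final form -/
theorem UD.icc {α : U →⋆ₐ[ℂ] U} {x : U} (h : UD α x) (ε : ℝ) (hε : 0 < ε) :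
    ∃ N₀ : ℕ, ∀ N ≥ N₀, ∀ z : ℂ, ‖z‖ = 1 →
      ‖∑ n ∈ Icc 1 N, (((ArithmeticFunction.moebius n : ℤ) : ℂ) * z ^ n) • (α^[n]) x‖ ≤ ε * N := by
  obtain ⟨N0, h0⟩ := h (ε / 2) (by positivity)
  refine ⟨max N0 1, fun N hN z hz => ?_⟩
  have hN1 : 1 ≤ N := (le_max_right _ _).trans hN
  have h1 := h0 (N + 1) (by have := (le_max_left N0 1).trans hN; omega) z hz
  have e : MS α x (N + 1) z = ∑ n ∈ Icc 1 N, (mob n * z ^ n) • (α^[n]) x := by
    rw [MS, range_eq_Ico, sum_eq_sum_Ico_succ_bot (Nat.succ_pos N)]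
    have : mob 0 = 0 := by simp [mob]
    rw [this, zero_mul, zero_smul, zero_add]
    rfl
  rw [e] at h1
  have hNr : (1 : ℝ) ≤ N := by exact_mod_cast hN1
  push_cast at h1
  refine le_trans h1 ?_
  nlinarith

theorem UD.fun {α : U →⋆ₐ[ℂ] U} {x : U} (h : UD α x) (ρ : U →L[ℂ] ℂ) :
    Tendsto (fun N : ℕ => (1 / (N : ℂ)) *
      ∑ n ∈ Icc 1 N, ((ArithmeticFunction.moebius n : ℤ) : ℂ) * ρ ((α^[n]) x)) atTop (𝓝 0) := by
  rw [Metric.tendsto_atTop]
  intro ε hε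
  obtain ⟨N0, h0⟩ := h.icc (ε / (2 * (‖ρ‖ + 1))) (by positivity)
  refine ⟨max N0 1, fun N hN => ?_⟩
  have hN1 : 1 ≤ N := (le_max_right _ _).trans hN
  have hNr : (1 : ℝ) ≤ N := by exact_mod_cast hN1
  have h1 := h0 N ((le_max_left _ _).trans hN) 1 norm_one
  simp only [one_pow, mul_one] at h1
  have e : ∑ n ∈ Icc 1 N, ((ArithmeticFunction.moebius n : ℤ) : ℂ) * ρ ((α^[n]) x)
      = ρ (∑ n ∈ Icc 1 N, ((ArithmeticFunction.moebius n : ℤ) : ℂ) • (α^[n]) x) := by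
    rw [map_sum]
    exact sum_congr rfl fun n _ => by rw [map_smul, smul_eq_mul]
  rw [dist_zero_right, e, norm_mul, norm_div, norm_one, Complex.norm_natCast]
  calc 1 / (N : ℝ) * ‖ρ (∑ n ∈ Icc 1 N, ((ArithmeticFunction.moebius n : ℤ) : ℂ) • (α^[n]) x)‖
      ≤ 1 / (N : ℝ) * (‖ρ‖ * (ε / (2 * (‖ρ‖ + 1)) * N)) := by
        gcongr
        exact (ρ.le_opNorm _).trans (by gcongr)
    _ = (‖ρ‖ / (‖ρ‖ + 1)) * (ε / 2) := by field_simp
    _ ≤ 1 * (ε / 2) := by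
        gcongr
        rw [div_le_one (by positivity)]
        linarith
    _ < ε := by linarith

end Pool.Agent.H258.PA
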